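import Pool.Agent.TH581.HH.Stm

/-! From polytopes to convex bodies. -/

set_option autoImplicit false

noncomputable section

open MeasureTheory Set Filter Topology
open scoped ENNReal NNReal Pointwise

namespace Pool.Agent.TH45.HH

open Pool.Agent.TH581.HH

/-- insertion of the coordinate `c` at `i` -/
def ins {m : ℕ} (i : Fin (m + 1)) (c : ℝ) (z : E m) : E (m + 1) :=
  WithLp.toLp 2 (Fin.insertNth (α := fun _ => ℝ) i c (fun j => z j))

lemma ins_same {m : ℕ} (i : Fin (m + 1)) (c : ℝ) (z : E m) : ins i c z i = c := by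
  simp [ins]

lemma ins_above {m : ℕ} (i : Fin (m + 1)) (c : ℝ) (z : E m) (j : Fin m) :
    ins i c z (i.succAbove j) = z j := by
  simp [ins]

lemma lip_ins {m : ℕ} (i : Fin (m + 1)) (c : ℝ) : LipschitzWith 1 (ins (m := m) i c) := by
  refine LipschitzWith.of_dist_le_mul fun x y => ?_
  rw [NNReal.coe_one, one_mul, EuclideanSpace.dist_eq, EuclideanSpace.dist_eq]
  apply Real.sqrt_le_sqrt
  rw [Fin.sum_univ_succAbove _ i]
  simp only [ins_same, ins_above, dist_self]
  simp

/-- cubes -/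
def cube (n : ℕ) (R : ℝ) : Set (E n) := {x | ∀ i, |x i| ≤ R}

lemma cube_compact (n : ℕ) (R : ℝ) : IsCompact (cube n R) := by
  have h1 : IsCompact (Set.pi univ fun _ : Fin n => Icc (-R) R) :=
    isCompact_univ_pi fun _ => isCompact_Icc
  have h2 : cube n R = (EuclideanSpace.equiv (Fin n) ℝ).symm '' (Set.pi univ fun _ => Icc (-R) R) := by
    ext x
    constructor
    · intro hx
      refine ⟨(EuclideanSpace.equiv (Fin n) ℝ) x, ?_, by simp⟩
      intro i _
      exact abs_le.1 (hx i)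
    · rintro ⟨y, hy, rfl⟩ i
      exact abs_le.2 (hy i (mem_univ i))
  rw [h2]
  exact h1.image (EuclideanSpace.equiv (Fin n) ℝ).symm.continuous

lemma cube_frontier {m : ℕ} (R : ℝ) : frontier (cube (m + 1) R) ⊆
    ⋃ i : Fin (m + 1), (ins i R '' cube m R ∪ ins i (-R) '' cube m R) := by
  intro x hx
  have hxc : x ∈ cube (m + 1) R := (cube_compact (m + 1) R).isClosed.frontier_subset hx
  have h1 : ∃ i, |x i| = R := by
    by_contra hcon
    push Not at hcon
    have hlt : ∀ i, |x i| < R := fun i => lt_of_le_of_ne (hxc i) (hcon i)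
    have ho : IsOpen {y : E (m + 1) | ∀ i, |y i| < R} := by
      rw [Set.ofPred_forall]
      exact isOpen_iInter_of_finite fun i => isOpen_lt (by fun_prop) continuous_const
    have hsub : {y : E (m + 1) | ∀ i, |y i| < R} ⊆ cube (m + 1) R := fun y hy i => (hy i).le
    exact hx.2 (interior_maximal hsub ho hlt)
  obtain ⟨i, hi⟩ := h1
  have h2 : x = ins i (x i) (WithLp.toLp 2 fun j => x (i.succAbove j)) := by
    ext k
    rcases Fin.eq_self_or_eq_succAbove i k with rfl | ⟨j, rfl⟩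
    · rw [ins_same]
    · rw [ins_above]
  have h3 : (WithLp.toLp 2 fun j => x (i.succAbove j) : E m) ∈ cube m R := fun j => hxc _
  refine mem_iUnion.2 ⟨i, ?_⟩
  rcases (abs_eq (by rw [← hi]; exact abs_nonneg _)).1 hi with h | h
  · left
    exact ⟨_, h3, by rw [← h]; exact h2.symm⟩
  · right
    exact ⟨_, h3, by rw [← h]; exact h2.symm⟩

lemma cube_fin {m : ℕ} (R : ℝ) : (μHE[m] : Measure (E (m + 1))) (frontier (cube (m + 1) R)) < ⊤ := by
  refine (measure_mono (cube_frontier R)).trans_lt ?_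
  refine (measure_iUnion_fintype_le _ _).trans_lt (ENNReal.sum_lt_top.2 fun i _ => ?_)
  have h1 : ∀ c : ℝ, (μHE[m] : Measure (E (m + 1))) (ins i c '' cube m R) < ⊤ := by
    intro c
    refine (lip_image (lip_ins i c) m _).trans_lt ?_
    rw [EuclideanSpace.euclideanHausdorffMeasure_eq_volume]
    simp only [ENNReal.coe_one, one_pow, one_mul]
    exact (cube_compact m R).measure_lt_top
  exact (measure_union_le _ _).trans_lt (ENNReal.add_lt_top.2 ⟨h1 _, h1 _⟩)

lemma fin_frontier (hB : S_APB) {m : ℕ} {K : Set (E (m + 1))} (hK : IsCompact K)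
    (hc : Convex ℝ K) (hi : (interior K).Nonempty) :
    (μHE[m] : Measure (E (m + 1))) (frontier K) < ⊤ := by
  obtain ⟨R, hR⟩ := hK.isBounded.exists_norm_le
  have hsub : K ⊆ cube (m + 1) R := fun x hx i => by
    have := PiLp.norm_apply_le x i
    exact this.trans (hR x hx)
  obtain ⟨p, hp, -, -, hpf⟩ := hB (m + 1) K (cube (m + 1) R) hK hc hi (cube_compact _ _) hsub
  refine ((measure_mono hpf).trans (lip_image hp m _)).trans_lt ?_
  simp only [ENNReal.coe_one, one_pow, one_mul]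
  exact cube_fin R

lemma lip_lint' {m : ℕ} {g : E (m + 1) → E (m + 1)} (h : LipschitzWith 1 g) (S : Set (E (m + 1)))
    {f : E (m + 1) → ℝ≥0∞} (hf : Measurable f) :
    ∫⁻ x in g '' S, f x ∂(μHE[m] : Measure (E (m + 1))) ≤
      ∫⁻ z in S, f (g z) ∂(μHE[m] : Measure (E (m + 1))) := by
  have hgm : Measurable g := h.continuous.measurable
  have h1 : (μHE[m] : Measure (E (m + 1))).restrict (g '' S) ≤
      Measure.map g ((μHE[m] : Measure (E (m + 1))).restrict S) := by
    refine Measure.le_iff.2 fun B hB => ?_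
    rw [Measure.restrict_apply hB, Measure.map_apply hgm hB,
      Measure.restrict_apply (hgm hB)]
    have h2 : B ∩ g '' S ⊆ g '' (g ⁻¹' B ∩ S) := by
      rintro _ ⟨hb, z, hz, rfl⟩
      exact ⟨z, ⟨hb, hz⟩, rfl⟩
    refine (measure_mono h2).trans ((lip_image h m _).trans ?_)
    simp
  refine (lintegral_mono' h1 le_rfl).trans ?_
  rw [lintegral_map hf hgm]

/-- dilation with centre `x0` -/
def dil {n : ℕ} (x0 : E n) (c : ℝ) (x : E n) : E n := x0 + c • (x - x0)

/-- dilation as a homeomorphism -/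
def dilh {n : ℕ} (x0 : E n) (c : ℝ) (hc : c ≠ 0) : E n ≃ₜ E n :=
  (Homeomorph.subRight x0).trans ((Homeomorph.smulOfNeZero c hc).trans (Homeomorph.addLeft x0))

lemma dilh_apply {n : ℕ} (x0 : E n) (c : ℝ) (hc : c ≠ 0) (x : E n) :
    dilh x0 c hc x = dil x0 c x := rfl

/-- the small body -/
def Ke {n : ℕ} (K : Set (E n)) (x0 : E n) (ε : ℝ) : Set (E n) := {x | dil x0 (1 + ε) x ∈ K}

lemma Ke_eq {n : ℕ} (K : Set (E n)) (x0 : E n) {ε : ℝ} (h : 1 + ε ≠ 0) :
    Ke K x0 ε = dilh x0 (1 + ε) h ⁻¹' K := rfl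

lemma Ke_compact {n : ℕ} {K : Set (E n)} (hK : IsCompact K) (x0 : E n) {ε : ℝ} (h : 0 < ε) :
    IsCompact (Ke K x0 ε) := by
  rw [Ke_eq K x0 (by positivity : 1 + ε ≠ 0)]
  exact (dilh x0 (1 + ε) _).isCompact_preimage.2 hK

lemma Ke_convex {n : ℕ} {K : Set (E n)} (hK : Convex ℝ K) (x0 : E n) (ε : ℝ) :
    Convex ℝ (Ke K x0 ε) := by
  intro x hx y hy a b ha hb hab
  have h1 := hK hx hy ha hb hab
  have h2 : a • dil x0 (1 + ε) x + b • dil x0 (1 + ε) y = dil x0 (1 + ε) (a • x + b • y) := by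
    have hb' : b = 1 - a := by linarith
    subst hb'
    unfold dil
    module
  rw [h2] at h1
  exact h1

lemma Ke_int {n : ℕ} {K : Set (E n)} {x0 : E n} (hx0 : x0 ∈ interior K) {ε : ℝ} (h : 0 < ε) :
    (interior (Ke K x0 ε)).Nonempty := by
  refine ⟨x0, ?_⟩
  rw [Ke_eq K x0 (by positivity : 1 + ε ≠ 0), ← Homeomorph.preimage_interior]
  change dil x0 (1 + ε) x0 ∈ interior K
  unfold dil
  simpa using hx0

lemma Ke_mono {n : ℕ} {K : Set (E n)} (hK : Convex ℝ K) {x0 : E n} (hx0 : x0 ∈ K) {ε ε' : ℝ}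
    (h : 0 ≤ ε') (h' : ε' ≤ ε) : Ke K x0 ε ⊆ Ke K x0 ε' := by
  intro x hx
  have hpos : 0 < 1 + ε := by linarith
  have h1 := hK hx hx0 (a := (1 + ε') / (1 + ε)) (b := 1 - (1 + ε') / (1 + ε))
    (by apply div_nonneg <;> linarith) (by rw [sub_nonneg, div_le_one hpos]; linarith) (by ring)
  have h2 : ((1 + ε') / (1 + ε)) • dil x0 (1 + ε) x + (1 - (1 + ε') / (1 + ε)) • x0 =
      dil x0 (1 + ε') x := by
    unfold dil
    rw [smul_add, smul_smul, div_mul_cancel₀ _ hpos.ne']
    module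
  rw [h2] at h1
  exact h1

lemma Ke_frontier {m : ℕ} (K : Set (E (m + 1))) (x0 : E (m + 1)) {ε : ℝ} (h : 0 < ε) :
    (μHE[m] : Measure (E (m + 1))) (frontier K) ≤
      ENNReal.ofReal (1 + ε) ^ m * (μHE[m] : Measure (E (m + 1))) (frontier (Ke K x0 ε)) := by
  have hne : 1 + ε ≠ 0 := by positivity
  have hL : LipschitzWith (Real.toNNReal (1 + ε)) (dil x0 (1 + ε)) := by
    refine LipschitzWith.of_dist_le_mul fun x y => ?_
    rw [Real.coe_toNNReal _ (by positivity)]
    unfold dil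
    rw [dist_add_left, dist_smul₀, dist_sub_right, Real.norm_of_nonneg (by positivity)]
  have h1 : frontier K ⊆ dil x0 (1 + ε) '' frontier (Ke K x0 ε) := by
    intro y hy
    refine ⟨(dilh x0 (1 + ε) hne).symm y, ?_, ?_⟩
    · rw [Ke_eq K x0 hne, ← Homeomorph.preimage_frontier]
      change dilh x0 (1 + ε) hne ((dilh x0 (1 + ε) hne).symm y) ∈ frontier K
      rw [Homeomorph.apply_symm_apply]
      exact hy
    · rw [← dilh_apply x0 (1 + ε) hne, Homeomorph.apply_symm_apply]
  exact (measure_mono h1).trans (lip_image hL m _)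

lemma poly_convex {n N : ℕ} (ν : Fin N → E n) (b : Fin N → ℝ) : Convex ℝ (Poly ν b) := by
  intro x hx y hy s t hs ht hst i
  rw [inner_add_right, inner_smul_right, inner_smul_right]
  have h1 := mul_le_mul_of_nonneg_left (hx i) hs
  have h2 := mul_le_mul_of_nonneg_left (hy i) ht
  calc _ ≤ s * b i + t * b i := add_le_add h1 h2
    _ = b i := by rw [← add_mul, hst, one_mul]

lemma polyQ (hA : S_APA) {n : ℕ} {K : Set (E n)} (hK : IsCompact K) (hc : Convex ℝ K) {x0 : E n}
    (hx0 : x0 ∈ interior K) {ε : ℝ} (hε : 0 < ε) :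
    ∃ (N : ℕ) (ν : Fin N → E n) (b : Fin N → ℝ), Good ν b ∧ Poly ν b ⊆ K ∧
      Ke K x0 ε ⊆ Poly ν b := by
  have h1 : IsCompact ((Homeomorph.addRight x0) ⁻¹' K) :=
    (Homeomorph.addRight x0).isCompact_preimage.2 hK
  have h2 : Convex ℝ ((Homeomorph.addRight x0) ⁻¹' K) := hc.translate_preimage_left x0
  have h3 : (0 : E n) ∈ interior ((Homeomorph.addRight x0) ⁻¹' K) := by
    rw [← Homeomorph.preimage_interior]
    change (0 : E n) + x0 ∈ interior K
    rw [zero_add]; exact hx0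
  obtain ⟨N, ν, b, hG, hs1, hs2⟩ := hA n _ h1 h2 h3 ε hε
  have hpos : 0 < 1 + ε := by linarith
  let b' : Fin N → ℝ := fun i => (1 + ε)⁻¹ * b i + inner ℝ (ν i) x0
  have hmem : ∀ x : E n, x ∈ Poly ν b' ↔ (1 + ε) • (x - x0) ∈ Poly ν b := by
    intro x
    refine forall_congr' fun i => ?_
    rw [inner_smul_right, inner_sub_right]
    change inner ℝ (ν i) x ≤ (1 + ε)⁻¹ * b i + inner ℝ (ν i) x0 ↔ _
    rw [← sub_le_iff_le_add, inv_mul_eq_div, le_div_iff₀ hpos, mul_comm]
  let G : E n ≃ₜ E n := (Homeomorph.subRight x0).trans (Homeomorph.smulOfNeZero (1 + ε) hpos.ne')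
  have hpre : Poly ν b' = G ⁻¹' Poly ν b := by
    ext x
    exact hmem x
  refine ⟨N, ν, b', ⟨hG.unit, ?_, ?_, ?_⟩, ?_, ?_⟩
  · intro i j hν hb
    apply hG.inj i j hν
    change (1 + ε)⁻¹ * b i + inner ℝ (ν i) x0 = (1 + ε)⁻¹ * b j + inner ℝ (ν j) x0 at hb
    rw [hν] at hb
    exact mul_left_cancel₀ (inv_ne_zero hpos.ne') (add_right_cancel hb)
  · rw [hpre]
    exact G.isCompact_preimage.2 hG.cpt
  · rw [hpre, ← Homeomorph.preimage_interior]
    obtain ⟨y, hy⟩ := hG.int
    refine ⟨G.symm y, ?_⟩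
    change G (G.symm y) ∈ interior (Poly ν b)
    rw [Homeomorph.apply_symm_apply]
    exact hy
  · intro x hx
    have h4 := hs2 ((hmem x).1 hx)
    obtain ⟨y, hy, hxy⟩ := h4
    have h5 : y = x - x0 := smul_right_injective _ hpos.ne' hxy
    change y + x0 ∈ K at hy
    rw [h5, sub_add_cancel] at hy
    exact hy
  · intro x hx
    rw [hmem]
    apply hs1
    change (1 + ε) • (x - x0) + x0 ∈ K
    rw [add_comm]
    exact hx

lemma step (hP : S_POLY) (hA : S_APA) (hB : S_APB) {m : ℕ} (hm : 1 ≤ m) {K : Set (E (m + 1))}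
    (hK : IsCompact K) (hc : Convex ℝ K) {x0 : E (m + 1)} (hx0 : x0 ∈ interior K)
    {f : E (m + 1) → ℝ} (hf : Continuous f) (hf0 : ∀ x, 0 ≤ f x) (hfc : ConvexOn ℝ K f)
    {ε η D δ : ℝ} (hε : 0 < ε) (hη : 0 ≤ η) (hD : ∀ x ∈ K, ‖x - x0‖ ≤ D) (hδ : ε * D < δ)
    (hu : ∀ x ∈ K, ∀ y ∈ K, dist x y < δ → dist (f x) (f y) < η) :
    (μHE[m] : Measure (E (m + 1))) (frontier K) * ∫⁻ x in Ke K x0 ε, ENNReal.ofReal (f x) ≤
      ENNReal.ofReal (1 + ε) ^ m * ((m + 1 : ℕ) * volume K *
        (∫⁻ x in frontier K, ENNReal.ofReal (f x) ∂(μHE[m] : Measure (E (m + 1))) +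
          ENNReal.ofReal η * (μHE[m] : Measure (E (m + 1))) (frontier K))) := by
  obtain ⟨N, ν, b, hG, hQK, hKQ⟩ := polyQ hA hK hc hx0 hε
  have hpos : 0 < 1 + ε := by linarith
  have hQc := poly_convex ν b
  have hfm : Measurable fun x => ENNReal.ofReal (f x) :=
    (ENNReal.continuous_ofReal.comp hf).measurable
  -- the boundary of the small body
  obtain ⟨p1, hp1, -, -, hpf1⟩ := hB (m + 1) (Ke K x0 ε) (Poly ν b) (Ke_compact hK x0 hε)
    (Ke_convex hc x0 ε) (Ke_int hx0 hε) hG.cpt hKQ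
  have i1 : (μHE[m] : Measure (E (m + 1))) (frontier (Ke K x0 ε)) ≤
      (μHE[m] : Measure (E (m + 1))) (frontier (Poly ν b)) := by
    refine ((measure_mono hpf1).trans (lip_image hp1 m _)).trans ?_
    simp
  have i2 := (Ke_frontier K x0 hε).trans (mul_le_mul_right i1 (ENNReal.ofReal (1 + ε) ^ m))
  -- the integral over the boundary of the polytope
  obtain ⟨p2, hp2, hp2Q, hp2n, hpf2⟩ := hB (m + 1) (Poly ν b) K hG.cpt hQc hG.int hK hQK
  have i3 : ∫⁻ x in frontier (Poly ν b), ENNReal.ofReal (f x) ∂(μHE[m] : Measure (E (m + 1))) ≤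
      ∫⁻ x in frontier K, ENNReal.ofReal (f x) ∂(μHE[m] : Measure (E (m + 1))) +
          ENNReal.ofReal η * (μHE[m] : Measure (E (m + 1))) (frontier K) := by
    calc ∫⁻ x in frontier (Poly ν b), ENNReal.ofReal (f x) ∂(μHE[m] : Measure (E (m + 1)))
        ≤ ∫⁻ x in p2 '' frontier K, ENNReal.ofReal (f x) ∂(μHE[m] : Measure (E (m + 1))) :=
          lintegral_mono_set hpf2
      _ ≤ ∫⁻ x in frontier K, ENNReal.ofReal (f (p2 x)) ∂(μHE[m] : Measure (E (m + 1))) :=
          lip_lint' hp2 _ hfm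
      _ ≤ ∫⁻ x in frontier K, (ENNReal.ofReal (f x) + ENNReal.ofReal η)
            ∂(μHE[m] : Measure (E (m + 1))) := by
          refine setLIntegral_mono' isClosed_frontier.measurableSet fun x hx => ?_
          have hxK : x ∈ K := hK.isClosed.frontier_subset hx
          have hpK : p2 x ∈ K := hQK (hp2Q x)
          let y0 : E (m + 1) := x0 + (1 + ε)⁻¹ • (x - x0)
          have hy0 : y0 ∈ Poly ν b := by
            apply hKQ
            change x0 + (1 + ε) • (x0 + (1 + ε)⁻¹ • (x - x0) - x0) ∈ K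
            rw [add_sub_cancel_left, smul_smul, mul_inv_cancel₀ hpos.ne', one_smul,
              add_sub_cancel]
            exact hxK
          have h1 : dist x y0 ≤ ε * D := by
            have h2 : x - y0 = (1 - (1 + ε)⁻¹) • (x - x0) := by
              change x - (x0 + (1 + ε)⁻¹ • (x - x0)) = _
              module
            have h3 : 1 - (1 + ε)⁻¹ = ε * (1 + ε)⁻¹ := by
              field_simp
              ring
            have h4 : 0 ≤ 1 - (1 + ε)⁻¹ := by rw [h3]; positivity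
            have h5 : 1 - (1 + ε)⁻¹ ≤ ε := by
              rw [h3]
              have : (1 + ε)⁻¹ ≤ 1 := inv_le_one_of_one_le₀ (by linarith)
              nlinarith
            rw [dist_eq_norm, h2, norm_smul, Real.norm_of_nonneg h4]
            exact mul_le_mul h5 (hD x hxK) (norm_nonneg _) hε.le
          have h6 : dist x (p2 x) < δ := ((hp2n x y0 hy0).trans h1).trans_lt hδ
          have h7 := hu x hxK (p2 x) hpK h6
          rw [Real.dist_eq, abs_lt] at h7
          rw [← ENNReal.ofReal_add (hf0 x) hη]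
          exact ENNReal.ofReal_le_ofReal (by linarith)
      _ = _ := by
          rw [lintegral_add_right _ measurable_const, setLIntegral_const]
  have i4 := hP m N ν b hm hG f hf hf0 (hfc.subset hQK hQc)
  calc (μHE[m] : Measure (E (m + 1))) (frontier K) * ∫⁻ x in Ke K x0 ε, ENNReal.ofReal (f x)
      ≤ (ENNReal.ofReal (1 + ε) ^ m * (μHE[m] : Measure (E (m + 1))) (frontier (Poly ν b))) *
          ∫⁻ x in Poly ν b, ENNReal.ofReal (f x) :=
        mul_le_mul' i2 (lintegral_mono_set hKQ)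
    _ = ENNReal.ofReal (1 + ε) ^ m * ((μHE[m] : Measure (E (m + 1))) (frontier (Poly ν b)) *
          ∫⁻ x in Poly ν b, ENNReal.ofReal (f x)) := mul_assoc _ _ _
    _ ≤ ENNReal.ofReal (1 + ε) ^ m * ((m + 1 : ℕ) * volume (Poly ν b) *
          ∫⁻ x in frontier (Poly ν b), ENNReal.ofReal (f x) ∂(μHE[m] : Measure (E (m + 1)))) :=
        mul_le_mul' le_rfl i4
    _ ≤ _ := mul_le_mul' le_rfl (mul_le_mul' (mul_le_mul' le_rfl (measure_mono hQK)) i3)

theorem t_full (hP : S_POLY) (hA : S_APA) (hB : S_APB) : S_FULL := by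
  intro m K hm hK hc hi f hf hf0 hfc
  obtain ⟨x0, hx0⟩ := hi
  have hx0K : x0 ∈ K := interior_subset hx0
  have hfin := fin_frontier hB hK hc ⟨x0, hx0⟩
  have hKfin : volume K ≠ ⊤ := hK.measure_lt_top.ne
  obtain ⟨D, hD⟩ : ∃ D, ∀ x ∈ K, ‖x - x0‖ ≤ D := by
    obtain ⟨R, hR⟩ := hK.isBounded.exists_norm_le
    exact ⟨R + ‖x0‖, fun x hx => (norm_sub_le _ _).trans (by linarith [hR x hx])⟩
  have hD0 : 0 ≤ D := (norm_nonneg _).trans (hD x0 hx0K)
  -- bound of f on the boundary
  have hF : ∫⁻ x in frontier K, ENNReal.ofReal (f x) ∂(μHE[m] : Measure (E (m + 1))) ≠ ⊤ := by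
    obtain ⟨M, hM⟩ := (hK.image hf).isBounded.exists_norm_le
    have h1 : ∫⁻ x in frontier K, ENNReal.ofReal (f x) ∂(μHE[m] : Measure (E (m + 1))) ≤
        ∫⁻ x in frontier K, ENNReal.ofReal M ∂(μHE[m] : Measure (E (m + 1))) := by
      refine setLIntegral_mono' isClosed_frontier.measurableSet fun x hx => ?_
      have := hM (f x) ⟨x, hK.isClosed.frontier_subset hx, rfl⟩
      exact ENNReal.ofReal_le_ofReal ((Real.le_norm_self _).trans this)
    rw [setLIntegral_const] at h1
    exact (h1.trans_lt (ENNReal.mul_lt_top ENNReal.ofReal_lt_top hfin)).ne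
  set A := (μHE[m] : Measure (E (m + 1))) (frontier K) with hAdef
  set F := ∫⁻ x in frontier K, ENNReal.ofReal (f x) ∂(μHE[m] : Measure (E (m + 1))) with hFdef
  let e : ℕ → ℝ := fun k => 1 / ((k : ℝ) + 1)
  have he : ∀ k, 0 < e k := fun k => by positivity
  have het : Tendsto e atTop (𝓝 0) := tendsto_one_div_add_atTop_nhds_zero_nat
  have hea : ∀ i j, i ≤ j → e j ≤ e i := fun i j hij => by
    have h1 : (i : ℝ) ≤ j := by exact_mod_cast hij
    exact one_div_le_one_div_of_le (by positivity) (by linarith)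
  -- first limit
  have hlim1 : ∀ η : ℝ, 0 < η → A * ∫⁻ x in K, ENNReal.ofReal (f x) ≤
      (m + 1 : ℕ) * volume K * (F + ENNReal.ofReal η * A) := by
    intro η hη
    obtain ⟨δ, hδ, hu⟩ := Metric.uniformContinuousOn_iff.1
      (hK.uniformContinuousOn_of_continuous hf.continuousOn) η hη
    have hRne : (m + 1 : ℕ) * volume K * (F + ENNReal.ofReal η * A) ≠ ⊤ :=
      ENNReal.mul_ne_top (ENNReal.mul_ne_top (ENNReal.natCast_ne_top _) hKfin)
        (ENNReal.add_ne_top.2 ⟨hF, ENNReal.mul_ne_top ENNReal.ofReal_ne_top hfin.ne⟩)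
    have hev : ∀ᶠ j in atTop, e j * D < δ := by
      have h1 : Tendsto (fun j => e j * D) atTop (𝓝 (0 * D)) := het.mul_const D
      rw [zero_mul] at h1
      exact h1.eventually (gt_mem_nhds hδ)
    have hk : ∀ k, A * ∫⁻ x in Ke K x0 (e k), ENNReal.ofReal (f x) ≤
        (m + 1 : ℕ) * volume K * (F + ENNReal.ofReal η * A) := by
      intro k
      have h2 : Tendsto (fun j => ENNReal.ofReal (1 + e j) ^ m *
          ((m + 1 : ℕ) * volume K * (F + ENNReal.ofReal η * A))) atTop
          (𝓝 (1 * ((m + 1 : ℕ) * volume K * (F + ENNReal.ofReal η * A)))) := by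
        refine ENNReal.Tendsto.mul_const ?_ (Or.inr hRne)
        have h3 : Tendsto (fun j => ENNReal.ofReal (1 + e j)) atTop (𝓝 1) := by
          have h4 : Tendsto (fun j => 1 + e j) atTop (𝓝 (1 + 0)) := het.const_add 1
          have h5 := ENNReal.tendsto_ofReal h4
          simpa using h5
        have h6 := ENNReal.Tendsto.pow (n := m) h3
        simpa using h6
      rw [one_mul] at h2
      refine ge_of_tendsto h2 ?_
      filter_upwards [hev, eventually_ge_atTop k] with j hj hkj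
      refine le_trans ?_ (step hP hA hB hm hK hc hx0 hf hf0 hfc (he j) hη.le hD hj hu)
      exact mul_le_mul' le_rfl (lintegral_mono_set (Ke_mono hc hx0K (he j).le (hea k j hkj)))
    have hU : ∫⁻ x in ⋃ k, Ke K x0 (e k), ENNReal.ofReal (f x) =
        ⨆ k, ∫⁻ x in Ke K x0 (e k), ENNReal.ofReal (f x) := by
      refine setLIntegral_iUnion_of_directed _ ?_
      refine directed_of_isDirected_le fun i j hij => ?_
      exact Ke_mono hc hx0K (he j).le (hea i j hij)
    have hcov : interior K ⊆ ⋃ k, Ke K x0 (e k) := by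
      intro x hx
      have h1 : Tendsto (fun j => dil x0 (1 + e j) x) atTop (𝓝 x) := by
        have h4 : Tendsto (fun j => 1 + e j) atTop (𝓝 (1 + 0)) := het.const_add 1
        have h5 : Tendsto (fun j => x0 + (1 + e j) • (x - x0)) atTop
            (𝓝 (x0 + (1 + (0 : ℝ)) • (x - x0))) := (h4.smul_const (x - x0)).const_add x0
        simpa [dil] using h5
      have h2 := h1.eventually (isOpen_interior.mem_nhds hx)
      obtain ⟨k, hk⟩ := h2.exists
      have hk' : dil x0 (1 + e k) x ∈ K := interior_subset hk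
      exact mem_iUnion.2 ⟨k, hk'⟩
    have hint : ∫⁻ x in K, ENNReal.ofReal (f x) ≤
        ∫⁻ x in ⋃ k, Ke K x0 (e k), ENNReal.ofReal (f x) := by
      have h1 : (interior K : Set (E (m + 1))) =ᵐ[volume] K := by
        refine (ae_eq_set).2 ⟨?_, ?_⟩
        · rw [sdiff_eq_empty.2 interior_subset, measure_empty]
        · refine measure_mono_null ?_ (hc.addHaar_frontier volume)
          intro y hy
          exact ⟨subset_closure hy.1, hy.2⟩
      rw [← setLIntegral_congr h1]
      exact lintegral_mono_set hcov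
    calc A * ∫⁻ x in K, ENNReal.ofReal (f x)
        ≤ A * ⨆ k, ∫⁻ x in Ke K x0 (e k), ENNReal.ofReal (f x) := by
          rw [← hU]
          exact mul_le_mul' le_rfl hint
      _ = ⨆ k, A * ∫⁻ x in Ke K x0 (e k), ENNReal.ofReal (f x) := ENNReal.mul_iSup _ _
      _ ≤ _ := iSup_le hk
  -- second limit
  have h2 : Tendsto (fun j => (m + 1 : ℕ) * volume K * (F + ENNReal.ofReal (e j) * A)) atTop
      (𝓝 ((m + 1 : ℕ) * volume K * (F + 0 * A))) := by
    refine ENNReal.Tendsto.const_mul ?_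
      (Or.inr (ENNReal.mul_ne_top (ENNReal.natCast_ne_top _) hKfin))
    refine tendsto_const_nhds.add (ENNReal.Tendsto.mul_const ?_ (Or.inr hfin.ne))
    have h5 := ENNReal.tendsto_ofReal het
    simpa using h5
  rw [zero_mul, add_zero] at h2
  exact ge_of_tendsto' h2 fun j => hlim1 (e j) (he j)

end Pool.Agent.TH45.HH
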